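import Mathlib
import Pool.Agent.H936Z.UsbDefs
import Pool.Agent.H936Z.UsbMain

set_option autoImplicit false

namespace Pool.Agent.Results.MP_8d2e9f_nt.APnotUSB

open Pool.Agent.H936Z.Usb

/-- Some subfield of the algebraic closure of the rationals has property (P) but not (USB). -/
theorem result : ∃ F : IntermediateField ℚ Qbar, PropP F ∧ ¬ USB F :=
  ⟨Finf, propP_Finf, not_usb_Finf⟩

end Pool.Agent.Results.MP_8d2e9f_nt.APnotUSB
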